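import Pool.Agent.Helper10.RC.Basic

open scoped ENNReal NNReal InnerProductSpace ComplexOrder
open Filter Topology

attribute [-instance] CStarMatrix.instAlgebra CStarMatrix.instModule CStarMatrix.instSMul
  CStarMatrix.instMulAction CStarMatrix.instDistribMulAction

noncomputable section
namespace RC
universe u

namespace H42
variable {A : Type u} [CStarAlgebra A] [PartialOrder A] [StarOrderedRing A]

/-- `one1` as a star homomorphism -/
def one1Hom : A →⋆ₐ[ℂ] CStarMatrix Unit Unit A where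
  toFun := one1
  map_one' := by
    ext i j
    rfl
  map_mul' a b := by
    ext i j
    rw [CStarMatrix.mul_apply]
    simp [one1]
  map_zero' := by
    ext i j
    rfl
  map_add' a b := by
    ext i j
    rfl
  commutes' r := by
    rw [Algebra.algebraMap_eq_smul_one, Algebra.algebraMap_eq_smul_one]
    ext i j
    rfl
  map_star' a := by
    ext i j
    rfl

theorem one1Hom_apply (a : A) : one1Hom a = one1 a := rfl

theorem map_cfc' {B : Type u} [CStarAlgebra B] [PartialOrder B] [StarOrderedRing B]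
    (j : B →⋆ₐ[ℂ] A) (f : ℝ → ℝ) (hf : Continuous f) {a : B} (ha : IsSelfAdjoint a) :
    j (cfc f a) = cfc f (j a) :=
  StarAlgHomClass.map_cfc (R := ℝ) (S := ℂ) j f a (hf := hf.continuousOn)
    (hφ := map_continuous j) (ha := ha) (hφa := ha.map j)

theorem one1_cut {a : A} (ha : IsSelfAdjoint a) (s : ℝ) : one1 (cut a s) = cut (one1 a) s := by
  have hc : Continuous fun t : ℝ => max (t - s) 0 := by fun_prop
  exact map_cfc' one1Hom _ hc ha

theorem map_cut {B : Type u} [CStarAlgebra B] [PartialOrder B] [StarOrderedRing B]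
    (j : B →⋆ₐ[ℂ] A) {a : B} (ha : IsSelfAdjoint a) (s : ℝ) : j (cut a s) = cut (j a) s :=
  map_cfc' j (fun t : ℝ => max (t - s) 0) (by fun_prop) ha

theorem one1_nonneg {a : A} (ha : 0 ≤ a) : 0 ≤ one1 a := by
  rw [← one1Hom_apply]
  obtain ⟨s, rfl⟩ := CStarAlgebra.nonneg_iff_eq_star_mul_self.mp ha
  rw [map_mul, map_star]
  exact star_mul_self_nonneg _

theorem map_nonneg' {B : Type u} [CStarAlgebra B] [PartialOrder B] [StarOrderedRing B]
    (j : B →⋆ₐ[ℂ] A) {a : B} (ha : 0 ≤ a) : 0 ≤ j a := by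
  obtain ⟨s, rfl⟩ := CStarAlgebra.nonneg_iff_eq_star_mul_self.mp ha
  rw [map_mul, map_star]
  exact star_mul_self_nonneg _

/-- lower bound for the dimension of an element below `1 / 2` -/
theorem dim_ge (h4 : QBasicP.{u}) (σ : QTrace A) {y : A} (hy : 0 ≤ y)
    (hy2 : y ≤ algebraMap ℝ A (1 / 2)) :
    2 * σ.τ Unit (one1 y) ≤ σ.dim (one1 y) := by
  have h0 := one1_nonneg hy
  have hle : one1 y ≤ algebraMap ℝ (CStarMatrix Unit Unit A) (1 / 2) := by
    have h1 := map_nonneg' one1Hom (sub_nonneg.mpr hy2)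
    have h2 : one1Hom (algebraMap ℝ A (1 / 2)) =
        algebraMap ℝ (CStarMatrix Unit Unit A) (1 / 2) := by
      rw [Algebra.algebraMap_eq_smul_one, Algebra.algebraMap_eq_smul_one]
      ext i j
      rfl
    rw [map_sub, h2, one1Hom_apply] at h1
    exact sub_nonneg.mp h1
  have hspec : ∀ t ∈ spectrum ℝ (one1 y), t ≤ 1 / 2 := by
    have := (le_algebraMap_iff_spectrum_le (A := CStarMatrix Unit Unit A)
      (R := ℝ) (a := one1 y) (r := 1 / 2) h0.isSelfAdjoint).mp hle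
    exact this
  have h3 := (h4 A σ Unit (one1 y) h0).1
  have h5 : σ.τ Unit (cfc (fun t : ℝ => min 1 (((2 : ℕ) : ℝ) * t)) (one1 y)) ≤
      σ.dim (one1 y) := le_ciSup h3 2
  refine le_trans (le_of_eq ?_) h5
  rw [← σ.smul Unit 2 _ (by norm_num) h0]
  congr 1
  have h6 : cfc (fun t : ℝ => min 1 (((2 : ℕ) : ℝ) * t)) (one1 y) =
      cfc (fun t : ℝ => 2 * t) (one1 y) := by
    refine cfc_congr fun t ht => ?_
    have := hspec t ht
    rw [min_eq_right]
    · norm_num
    · push_cast; linarith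
  rw [h6, cfc_const_mul 2 (fun t : ℝ => t) (one1 y), cfc_id' ℝ (one1 y)]

end H42

open H42

theorem zBP (h1 : Kap2P.{u}) (h2 : RepFV2P.{u}) (h3 : QOfTP.{u}) (h4 : QBasicP.{u})
    (h5 : QCutP.{u}) : ZBP.{u} := by
  intro A _ _ _ B _ _ _ j φ σ₀ C G _ _ α H _ _ _ π ρ ξ U hrep hact hfix himp hQ hC hdom z hz hz0
  obtain ⟨hFV, hπj⟩ := h2 A B j φ G α H π ρ ξ U hrep hact hfix himp
  set S : Set (H →L[ℂ] H) := Set.range ρ ∪ Set.range U with hS
  obtain ⟨hzS, hzp, hzc⟩ := hz
  have hzz : ∀ v : H, z (z v) = z v := fun v => by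
    have := congrArg (fun T : H →L[ℂ] H => T v) hzp.isIdempotentElem.eq
    simpa using this
  have hzsa : ∀ v w : H, ⟪v, z w⟫_ℂ = ⟪z v, w⟫_ℂ := fun v w => by
    have h6 : ContinuousLinearMap.adjoint z = z := by
      have := hzp.isSelfAdjoint
      rw [IsSelfAdjoint, ContinuousLinearMap.star_eq_adjoint] at this
      exact this
    rw [← ContinuousLinearMap.adjoint_inner_left, h6]
  have hzi : ∀ v : H, ⟪v, z v⟫_ℂ = ((‖z v‖ ^ 2 : ℝ) : ℂ) := fun v => by
    rw [← hzz v, hzsa v (z v), inner_self_eq_norm_sq_to_K]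
    rw [hzz v]
    norm_cast
  have hz1 : ‖z‖ ≤ 1 := by
    have h6 : ‖z‖ * ‖z‖ = ‖z‖ := by
      rw [← CStarRing.norm_star_mul_self, hzp.isSelfAdjoint.star_eq, hzp.isIdempotentElem.eq]
    nlinarith [norm_nonneg z]
  have hz1' : ∀ v : H, ‖z v‖ ≤ ‖v‖ := fun v => by
    have := z.le_opNorm v
    nlinarith [norm_nonneg v]
  set t : ℝ := tr ξ z with ht
  have ht2 : t = ‖z ξ‖ ^ 2 := by
    rw [ht, tr, hzi]; exact Complex.ofReal_re _
  have hzξ : 0 < ‖z ξ‖ := by
    rw [norm_pos_iff]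
    intro h
    exact hz0 (hFV.sep z hzS h)
  have ht0 : 0 < t := by rw [ht2]; positivity
  -- commutation
  have hcom : ∀ (b : B) (v : H), z (π (j b) v) = π (j b) (z v) := fun b v => by
    have := congrArg (fun T : H →L[ℂ] H => T v) (hzc _ (hπj b))
    simpa using this
  have hstar : ∀ (b : B) (v w : H), ⟪v, π (j (star b)) w⟫_ℂ = ⟪π (j b) v, w⟫_ℂ := fun b v w => by
    rw [map_star, map_star, ContinuousLinearMap.star_eq_adjoint,
      ContinuousLinearMap.adjoint_inner_right]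
  have hsq : ∀ (b : B), ⟪ξ, z (π (j (star b * b)) ξ)⟫_ℂ = ((‖z (π (j b) ξ)‖ ^ 2 : ℝ) : ℂ) := by
    intro b
    rw [map_mul, map_mul, mul_apply_eq_comp, hcom, hstar, hzi]
  have hsq1 : ∀ (b : B), ⟪ξ, π (j (star b * b)) ξ⟫_ℂ = ((‖π (j b) ξ‖ ^ 2 : ℝ) : ℂ) := by
    intro b
    rw [map_mul, map_mul, mul_apply_eq_comp, hstar, inner_self_eq_norm_sq_to_K]
    norm_cast
  -- the tracial state
  let ψ : TState B :=
    { φ :=
        { toFun := fun b => ⟪ξ, z (π (j b) ξ)⟫_ℂ / (t : ℂ)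
          map_add' := fun a b => by
            simp only [map_add, add_apply, inner_add_right, add_div]
          map_smul' := fun c a => by
            simp only [map_smul, smul_apply, inner_smul_right, smul_eq_mul,
              RingHom.id_apply, mul_div_assoc] }
      nonneg := by
        intro a ha
        obtain ⟨s, rfl⟩ := CStarAlgebra.nonneg_iff_eq_star_mul_self.mp ha
        show 0 ≤ ⟪ξ, z (π (j (star s * s)) ξ)⟫_ℂ / (t : ℂ)
        rw [hsq, ← Complex.ofReal_div]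
        exact_mod_cast div_nonneg (sq_nonneg _) ht0.le
      trace := by
        intro a b
        show ⟪ξ, z (π (j (a * b)) ξ)⟫_ℂ / (t : ℂ) = ⟪ξ, z (π (j (b * a)) ξ)⟫_ℂ / (t : ℂ)
        congr 1
        have h6 := hFV.trace (z * π (j a)) (by
          rw [Set.mem_centralizer_iff] at *
          intro m hm
          rw [← mul_assoc, hzS m hm, mul_assoc, (Set.mem_centralizer_iff.mp (hπj a)) m hm,
            mul_assoc]) (π (j b)) (hπj b)
        rw [map_mul, map_mul, map_mul, map_mul]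
        simp only [mul_apply_eq_comp] at h6 ⊢
        rw [h6, hcom b, hcom a]
      one := by
        show ⟪ξ, z (π (j 1) ξ)⟫_ℂ / (t : ℂ) = 1
        rw [map_one, map_one, one_apply_eq_self, hzi, ← ht2]
        exact div_self (by exact_mod_cast ht0.ne') }
  have hψ : ∀ b, ψ.φ b = ⟪ξ, z (π (j b) ξ)⟫_ℂ / (t : ℂ) := fun b => rfl
  obtain ⟨ω, hω⟩ := h3 B ψ
  have hω1 : ∀ x : B, ω.τ Unit (one1 x) = (ψ.φ x).re := fun x => by
    rw [hω Unit (one1 x)]
    simp [one1]
  have hσ1 : ∀ x : A, σ₀.τ Unit (one1 x) = (φ.φ x).re := fun x => by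
    rw [hQ Unit (one1 x)]
    simp [one1]
  set r : ℝ := ‖z ξ‖ with hr
  -- main inequality
  have hmain : ∀ ε : ℝ, 0 < ε → ε < r → 2 * ((r - ε) ^ 2 / t) - 1 ≤ 2 * C * (r + ε) ^ 2 := by
    intro ε hε hεr
    obtain ⟨e, he1, he2⟩ := h1 A B j φ G α H π ρ ξ U hrep hact hfix himp z hzS hz1 ε hε
    set h : B := star e * e with hh
    have hh0 : 0 ≤ h := star_mul_self_nonneg e
    have hh1 : ‖h‖ ≤ 1 := by
      rw [hh, CStarRing.norm_star_mul_self]
      nlinarith [norm_nonneg e]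
    set y : B := cut h (1 / 2) with hy
    have hy0 : 0 ≤ y := cut_nonneg _ _
    have hspec : ∀ s ∈ spectrum ℝ h, s ≤ 1 := by
      have h6 : h ≤ algebraMap ℝ B 1 := by
        rw [map_one]; exact (CStarAlgebra.norm_le_one_iff_of_nonneg h hh0).mp hh1
      exact (le_algebraMap_iff_spectrum_le (R := ℝ) (a := h) (r := 1) hh0.isSelfAdjoint).mp h6
    have hy2 : y ≤ algebraMap ℝ B (1 / 2) := by
      refine cfc_le_algebraMap (fun t : ℝ => max (t - 1 / 2) 0) (1 / 2) h (fun s hs => ?_)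
        (by fun_prop) hh0.isSelfAdjoint
      exact max_le (by linarith [hspec s hs]) (by norm_num)
    have e1 : 2 * (ψ.φ y).re ≤ ω.dim (one1 y) := by
      rw [← hω1]; exact dim_ge h4 ω hy0 hy2
    have e2 : (ψ.φ h).re - 1 / 2 ≤ (ψ.φ y).re := by
      have h6 := le_cut_add hh0.isSelfAdjoint (1 / 2 : ℝ)
      have h7 := ψ.nonneg _ (sub_nonneg.mpr h6)
      rw [map_sub, map_add] at h7
      have h8 : ψ.φ ((1 / 2 : ℝ) • (1 : B)) = (1 / 2 : ℝ) := by
        have : ((1 / 2 : ℝ) • (1 : B)) = ((1 / 2 : ℝ) : ℂ) • (1 : B) := by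
          rw [Complex.coe_smul]
        rw [this, map_smul, ψ.one, smul_eq_mul, mul_one]
      rw [h8] at h7
      have h9 := (Complex.le_def.mp h7).1
      simp only [Complex.zero_re, Complex.sub_re, Complex.add_re, Complex.ofReal_re] at h9
      linarith
    have e3 := hdom ω y hy0
    have e4 : (1 / 2 : ℝ) * σ₀.dim (one1 (j y)) ≤ (φ.φ (j h)).re := by
      have h6 : j y = cut (j h) (1 / 2) := map_cut j hh0.isSelfAdjoint _
      have h7 : 0 ≤ j h := map_nonneg' j hh0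
      rw [h6, one1_cut h7.isSelfAdjoint, ← hσ1]
      exact h5 A σ₀ Unit (one1 (j h)) (1 / 2) (one1_nonneg h7) (by norm_num)
    have e5 : (φ.φ (j h)).re = ‖π (j e) ξ‖ ^ 2 := by
      rw [← hrep.inner, hh, hsq1]; exact Complex.ofReal_re _
    have e6 : (ψ.φ h).re = ‖z (π (j e) ξ)‖ ^ 2 / t := by
      rw [hψ, hh, hsq, ← Complex.ofReal_div]; exact Complex.ofReal_re _
    have e7 : ‖π (j e) ξ‖ ≤ r + ε := by
      have : π (j e) ξ = z ξ + (π (j e) ξ - z ξ) := by abel
      rw [this]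
      exact (norm_add_le _ _).trans (by linarith)
    have e8 : r - ε ≤ ‖z (π (j e) ξ)‖ := by
      have h6 : ‖z (π (j e) ξ) - z ξ‖ ≤ ε := by
        have : z (π (j e) ξ) - z ξ = z (π (j e) ξ - z ξ) := by
          rw [map_sub, hzz]
        rw [this]
        exact (hz1' _).trans he2.le
      have h7 := norm_sub_norm_le (z ξ) (z (π (j e) ξ))
      rw [norm_sub_rev] at h7
      linarith
    have e9 : (r - ε) ^ 2 / t ≤ (ψ.φ h).re := by
      rw [e6]
      have : (r - ε) ^ 2 ≤ ‖z (π (j e) ξ)‖ ^ 2 := pow_le_pow_left₀ (by linarith) e8 2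
      exact div_le_div_of_nonneg_right this ht0.le
    have e10 : ‖π (j e) ξ‖ ^ 2 ≤ (r + ε) ^ 2 := pow_le_pow_left₀ (norm_nonneg _) e7 2
    have e11 : C * σ₀.dim (one1 (j y)) ≤ 2 * C * (r + ε) ^ 2 := by
      have : σ₀.dim (one1 (j y)) ≤ 2 * (r + ε) ^ 2 := by linarith
      nlinarith
    linarith
  have hlim : Tendsto (fun ε : ℝ => 2 * C * (r + ε) ^ 2 - (2 * ((r - ε) ^ 2 / t) - 1))
      (𝓝[>] 0) (𝓝 (2 * C * (r + 0) ^ 2 - (2 * ((r - 0) ^ 2 / t) - 1))) := by
    refine Tendsto.mono_left (Continuous.tendsto ?_ 0) nhdsWithin_le_nhds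
    fun_prop
  have hge : 0 ≤ 2 * C * (r + 0) ^ 2 - (2 * ((r - 0) ^ 2 / t) - 1) := by
    refine ge_of_tendsto hlim ?_
    filter_upwards [Ioo_mem_nhdsGT hzξ] with ε hε
    linarith [hmain ε hε.1 hε.2]
  have h6 : (r - 0) ^ 2 / t = 1 := by
    rw [sub_zero, ht2, hr]; exact div_self (by positivity)
  rw [h6, add_zero] at hge
  rw [hr, ← ht2] at hge
  linarith

end RC
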